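import Pool.Agent.Work.MP_97b8d2_co.Main

/-!
# Forbidding an induced minor does not bound the sphere dimension

Cobipartite graphs are closed under induced minors, and so are split graphs.  The adjacency of two
spheres is decided by the signs of two bilinear forms of rank at most `d + 3`, so by Sauer-Shelah
only polynomially many adjacency patterns towards `N` fixed spheres occur; a graph on
`[N] ∪ 2^[N]`, in which `i` and `S` are adjacent when `i ∈ S`, needs `2 ^ N` patterns.
-/

set_option autoImplicit false

namespace Pool.Agent.Results.MP_97b8d2_co.UnboundedSphereDim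

open Pool.Agent.Work.MP_97b8d2_co

/-- It is not true that `Forb_ind(H)` has bounded sphere dimension for every finite graph `H`.
Moreover, if `Forb_ind(H)` has bounded sphere dimension, then the vertex set of `H` is a union of
two cliques and it is also a union of a clique and an independent set. -/
theorem result :
    (¬ ∀ (W : Type) [Finite W] (H : SimpleGraph W), ForbIndBounded H) ∧
    ∀ (W : Type) [Finite W] (H : SimpleGraph W), ForbIndBounded H →
      (∃ A : Set W, H.IsClique A ∧ H.IsClique Aᶜ) ∧
      (∃ A : Set W, H.IsClique A ∧ H.IsIndepSet Aᶜ) := by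
  refine ⟨fun h => ?_, fun W _ H h => bounded_imp H h⟩
  obtain ⟨A, h1, h2⟩ := (bounded_imp _ (h (Fin 3) ⊥)).1
  have h01 : (0 : Fin 3) ≠ 1 := by decide
  have h02 : (0 : Fin 3) ≠ 2 := by decide
  have h12 : (1 : Fin 3) ≠ 2 := by decide
  by_cases a0 : (0 : Fin 3) ∈ A
  · by_cases a1 : (1 : Fin 3) ∈ A
    · exact h1 a0 a1 h01
    · by_cases a2 : (2 : Fin 3) ∈ A
      · exact h1 a0 a2 h02
      · exact h2 a1 a2 h12
  · by_cases a1 : (1 : Fin 3) ∈ A
    · by_cases a2 : (2 : Fin 3) ∈ A
      · exact h1 a1 a2 h12
      · exact h2 a0 a2 h02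
    · exact h2 a0 a1 h01

end Pool.Agent.Results.MP_97b8d2_co.UnboundedSphereDim
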